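import Pool.Agent.Helper31.RG.Goals

/-! # Packet ABS: weights of the chosen pieces -/

namespace Pool.Agent.Helper65.RG.PkABS

open Pool.Agent.Helper65.LinSpace Pool.Agent.Helper78 Pool.Agent.Helper78.Mpc
  Pool.Agent.Helper78.Xor Pool.Agent.Helper95.BG Pool.Agent.Helper31.RG Finset

/-- `1` if `n` is positive, and `0` otherwise. -/
def sg (n : ℕ) : ℕ := if n = 0 then 0 else 1

theorem sg_le (n : ℕ) : sg n ≤ 1 := by
  unfold sg
  split_ifs <;> omega

theorem wt_sg (k n : ℕ) : wt k n + sg n = (k + 1) * n + 1 := by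
  unfold wt sg ifz
  split_ifs <;> omega

theorem sum_wt {J : Type} [Fintype J] (k : ℕ) (g : J → ℕ) :
    ∑ j, wt k (g j) + ∑ j, sg (g j) = (k + 1) * ∑ j, g j + Fintype.card J := by
  rw [← sum_add_distrib, mul_sum]
  simp only [wt_sg]
  rw [sum_add_distrib, sum_const, card_univ, smul_eq_mul, mul_one]

theorem sum_sg_le {J : Type} [Fintype J] (g : J → ℕ) : ∑ j, sg (g j) ≤ Fintype.card J := by
  refine le_trans (sum_le_sum fun j _ => sg_le (g j)) ?_
  rw [sum_const, card_univ, smul_eq_mul, mul_one]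

section

variable {A J : Type} [Fintype A] [DecidableEq A] [Fintype J] (π : J → Option A)

/-- How often `a` is chosen. -/
def ch (a : A) : ℕ := ∑ j, if π j = some a then 1 else 0

theorem sum_elim (F : A → ℕ) : ∑ j, (π j).elim 0 F = ∑ a, ch π a * F a := by
  have h : ∀ j, (π j).elim 0 F = ∑ a, (if π j = some a then 1 else 0) * F a := by
    intro j
    rcases hj : π j with _ | a
    · simp
    · rw [Option.elim_some, sum_eq_single a]
      · simp
      · intro b _ hb
        rw [if_neg, zero_mul]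
        intro h
        exact hb (Option.some_injective _ h).symm
      · intro h
        exact (h (mem_univ _)).elim
  simp only [h, ch]
  rw [sum_comm]
  refine sum_congr rfl fun a _ => ?_
  rw [sum_mul]

theorem ch_le (hπ : ∀ i j a, π i = some a → π j = some a → i = j) (a : A) : ch π a ≤ 1 := by
  unfold ch
  by_cases h : ∃ i, π i = some a
  · obtain ⟨i, hi⟩ := h
    rw [sum_eq_single i]
    · split_ifs <;> omega
    · intro j _ hj
      rw [if_neg]
      intro h1
      exact hj (hπ j i a h1 hi)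
    · intro h1
      exact (h1 (mem_univ _)).elim
  · push Not at h
    rw [sum_eq_zero]
    · omega
    · intro j _
      rw [if_neg (h j)]

end

/-- The number of positive pieces of one range. -/
theorem one_range {n : ℕ} (d : Fin n → ℕ) : sg (∑ i, d i) ≤ ∑ i, sg (d i) ∧
    (∑ i, sg (d i) ≤ sg (∑ i, d i) → ∀ i, d i ≠ 0 → d i = ∑ i, d i) := by
  constructor
  · by_cases h : ∑ i, d i = 0
    · rw [h]
      exact Nat.zero_le _
    · obtain ⟨i, _, hi⟩ := exists_ne_zero_of_sum_ne_zero h
      refine le_trans (sg_le _) ?_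
      refine le_trans ?_ (single_le_sum (f := fun i => sg (d i)) (fun _ _ => Nat.zero_le _)
        (mem_univ i))
      unfold sg
      rw [if_neg hi]
  · intro h i hi
    symm
    refine sum_eq_single i (fun j _ hj => ?_) fun h1 => (h1 (mem_univ _)).elim
    by_contra hdj
    have h1 : sg (d i) + sg (d j) ≤ ∑ i, sg (d i) := by
      have h0 : ∑ x ∈ ({i, j} : Finset (Fin n)), sg (d x) = sg (d i) + sg (d j) :=
        sum_pair hj.symm
      rw [← h0]
      exact sum_le_sum_of_subset (subset_univ _)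
    have h2 : sg (d i) = 1 := if_neg hi
    have h3 : sg (d j) = 1 := if_neg hdj
    have h4 := sg_le (∑ i, d i)
    omega

theorem thm : G_ABS := by
  intro k r d π hπ
  have e1 := sum_wt k fun j => (π j).elim 0 fun a => d a.1 a.2
  have e2 := sum_wt k fun l => ∑ i, d l i
  have e3 := sum_sg_le fun l => ∑ i, d l i
  simp only [Fintype.card_fin] at e1 e2 e3
  have hc := ch_le π hπ
  have e4 : ∑ j, (π j).elim 0 (fun a => d a.1 a.2) = ∑ a, ch π a * d a.1 a.2 := sum_elim π _
  have e5 : ∑ j, sg ((π j).elim 0 fun a => d a.1 a.2) = ∑ a, ch π a * sg (d a.1 a.2) := by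
    rw [← sum_elim π fun a => sg (d a.1 a.2)]
    refine sum_congr rfl fun j _ => ?_
    rcases π j with _ | a <;> rfl
  have e6 : ∑ l, ∑ i, d l i = ∑ a : Fin k × Fin (r + 1), d a.1 a.2 := by
    rw [Fintype.sum_prod_type]
  have e7 : ∑ l, ∑ i, sg (d l i) = ∑ a : Fin k × Fin (r + 1), sg (d a.1 a.2) := by
    rw [Fintype.sum_prod_type]
  have h1 : ∀ a ∈ (univ : Finset (Fin k × Fin (r + 1))), ch π a * d a.1 a.2 ≤ d a.1 a.2 :=
    fun a _ => by
      have := Nat.mul_le_mul_right (d a.1 a.2) (hc a)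
      rwa [one_mul] at this
  have h2 : ∑ a, ch π a * d a.1 a.2 ≤ ∑ a : Fin k × Fin (r + 1), d a.1 a.2 := sum_le_sum h1
  have h3 : ∀ l ∈ (univ : Finset (Fin k)), sg (∑ i, d l i) ≤ ∑ i, sg (d l i) :=
    fun l _ => (one_range (d l)).1
  have h4 : ∑ l, sg (∑ i, d l i) ≤ ∑ l, ∑ i, sg (d l i) := sum_le_sum h3
  rcases Nat.lt_or_ge (∑ a, ch π a * d a.1 a.2) (∑ a : Fin k × Fin (r + 1), d a.1 a.2)
    with h5 | h5
  · have h6 : (k + 1) * (∑ a, ch π a * d a.1 a.2 + 1) ≤
        (k + 1) * ∑ a : Fin k × Fin (r + 1), d a.1 a.2 := Nat.mul_le_mul_left _ h5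
    rw [Nat.mul_succ] at h6
    rw [e4] at e1
    rw [e6] at e2
    constructor
    · omega
    · intro h7
      omega
  · have h6 := (sum_eq_sum_iff_of_le h1).1 (le_antisymm h2 h5)
    have h7 : ∑ a, ch π a * sg (d a.1 a.2) = ∑ a : Fin k × Fin (r + 1), sg (d a.1 a.2) := by
      refine sum_congr rfl fun a ha => ?_
      have h8 := h6 a ha
      unfold sg
      split_ifs with h9
      · rfl
      · have h10 : ch π a = 1 := by
          have h11 : ch π a * d a.1 a.2 = 1 * d a.1 a.2 := by rw [h8, one_mul]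
          exact Nat.eq_of_mul_eq_mul_right (Nat.pos_of_ne_zero h9) h11
        rw [h10]
    have h8 : ∑ a, ch π a * d a.1 a.2 = ∑ a : Fin k × Fin (r + 1), d a.1 a.2 :=
      le_antisymm h2 h5
    rw [e4, h8, e5, h7, ← e7] at e1
    rw [e6] at e2
    constructor
    · omega
    · intro h9 l
      have h10 : ∑ l, ∑ i, sg (d l i) ≤ ∑ l, sg (∑ i, d l i) := by omega
      have h11 := (sum_eq_sum_iff_of_le h3).1 (le_antisymm h4 h10) l (mem_univ l)
      exact (one_range (d l)).2 h11.ge

end Pool.Agent.Helper65.RG.PkABS
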